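import Pool.Agent.MP_c1891a_nt.G43.Spec2
import Pool.Agent.MP_c1891a_nt.G89.PrimN

/-
The primitive part of a Laurent polynomial with algebraic coefficients, any number of variables.
-/

namespace Pool.Agent.MP_c1891a_nt.G43

open Finset H43

theorem sPrimN2 : SPrimN2 := by
  intro d P hP h0
  have hc : P.coeff ≠ 0 := fun h => h0 (AddMonoidAlgebra.coeff_injective (by simpa using h))
  obtain ⟨μ0, hμ0⟩ := Finsupp.support_nonempty_iff.2 hc
  obtain ⟨c, hc0, h1, h2⟩ := prim_content P.coeff.support P.coeff (fun μ _ => hP μ) hμ0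
    (Finsupp.mem_support_iff.1 hμ0)
  refine ⟨c, hc0, fun μ => ?_, fun S hS ν => prim_int fun O => ?_⟩
  · by_cases h : μ ∈ P.coeff.support
    · exact h1 μ h
    · rw [Finsupp.notMem_support_iff.1 h, mul_zero]; exact isIntegral_zero
  · obtain ⟨μ, -, hμ⟩ := h2 O
    obtain ⟨m, hm⟩ := primN_gauss O.valuation P S μ ν
    calc O.valuation (c⁻¹ * S.coeff ν)
        ≤ O.valuation (c * P.coeff μ) * O.valuation (c⁻¹ * S.coeff ν) :=
          le_mul_of_one_le_left' hμ
      _ = O.valuation (P.coeff μ) * O.valuation (S.coeff ν) := by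
          rw [← map_mul, ← map_mul, mul_mul_mul_comm, mul_inv_cancel₀ hc0, one_mul]
      _ ≤ 1 := hm.trans (prim_le O (hS m))

end Pool.Agent.MP_c1891a_nt.G43
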